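import Pool.Agent.X275.GZ.G9b
import Pool.Agent.X275.GZ.Pole

/-!
# A class counting zeta function of a graphical group with a pole at `37/3`
-/

set_option autoImplicit false

namespace Pool.Agent.Results.MP_3df142_al.PoleAtThirtySevenThirds

open Pool.Agent.X275.GZ Filter Topology

universe u

/-- The coefficient `k(G_Γ(𝔒 / 𝔓 ^ k))`. -/
noncomputable def cc (O : Type u) [CommRing O] [IsLocalRing O] {V : Type} [LinearOrder V]
    (Γ : SimpleGraph V) (k : ℕ) : ℕ :=
  Nat.card (ConjClasses (GG Γ (O ⧸ (IsLocalRing.maximalIdeal O) ^ k)))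

/-- The term `k(G_Γ(𝔒 / 𝔓 ^ k)) q ^ (-k s)` of the class counting zeta function. -/
noncomputable def zterm (O : Type u) [CommRing O] [IsLocalRing O] {V : Type} [LinearOrder V]
    (Γ : SimpleGraph V) (s : ℂ) (k : ℕ) : ℂ :=
  (cc O Γ k : ℂ) * (Nat.card (IsLocalRing.ResidueField O) : ℂ) ^ (-(k : ℂ) * s)

/-- `F` is a meromorphic continuation to `ℂ` of the class counting zeta function: it is
meromorphic on `ℂ` and it is the sum of the series on some right half-plane. -/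
def IsContinuation (O : Type u) [CommRing O] [IsLocalRing O] {V : Type} [LinearOrder V]
    (Γ : SimpleGraph V) (F : ℂ → ℂ) : Prop :=
  MeromorphicOn F Set.univ ∧ ∃ σ : ℝ, ∀ s : ℂ, σ < s.re → HasSum (zterm O Γ s) (F s)

/-- `F` has a pole at `s`. -/
def HasPole (F : ℂ → ℂ) (s : ℂ) : Prop := meromorphicOrderAt F s < 0

section

variable (O : Type u) [CommRing O] [IsDomain O] [IsDiscreteValuationRing O]
  [Finite (IsLocalRing.ResidueField O)]

lemma two_le_card : 2 ≤ Nat.card (IsLocalRing.ResidueField O) := by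
  have := Finite.one_lt_card (α := IsLocalRing.ResidueField O)
  omega

lemma cc_eq (k : ℕ) : cc O G9 k = (Nat.card (IsLocalRing.ResidueField O) ^ k) ^ 2 *
    Nat.card (Sol G9 (O ⧸ (IsLocalRing.maximalIdeal O) ^ k)) := by
  obtain ⟨π, hπ⟩ := exists_chain O k
  have := hπ.finite
  rw [cc, card_conj9, card_quot_pow]

lemma cc_le (k : ℕ) : (cc O G9 k : ℝ) ≤ ((k : ℝ) + 1) ^ 9 *
    (Nat.card (IsLocalRing.ResidueField O) : ℝ) ^ ((37 / 3 : ℝ) * k) := by
  obtain ⟨π, hπ⟩ := exists_chain O k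
  have h1 := sol9_le hπ
  have hq := two_le_card O
  set q := Nat.card (IsLocalRing.ResidueField O) with hqd
  have hq1 : (1 : ℝ) < q := by exact_mod_cast hq
  have hq0 : (0 : ℝ) < q := by linarith
  have h2 : cc O G9 k ≤ (k + 1) ^ 9 * q ^ (2 * k + 31 * k / 3) := by
    rw [cc_eq, ← hqd]
    calc (q ^ k) ^ 2 * Nat.card (Sol G9 (O ⧸ (IsLocalRing.maximalIdeal O) ^ k))
        ≤ (q ^ k) ^ 2 * ((k + 1) ^ 9 * q ^ (31 * k / 3)) := Nat.mul_le_mul_left _ h1
      _ = (k + 1) ^ 9 * q ^ (2 * k + 31 * k / 3) := by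
        rw [pow_add, ← pow_mul, mul_comm k 2]; ring
  have h3 : (cc O G9 k : ℝ) ≤ ((k : ℝ) + 1) ^ 9 * (q : ℝ) ^ (2 * k + 31 * k / 3) := by
    exact_mod_cast h2
  refine h3.trans (mul_le_mul_of_nonneg_left ?_ (by positivity))
  rw [← Real.rpow_natCast]
  apply Real.rpow_le_rpow_of_exponent_le hq1.le
  have h4 : ((31 * k / 3 : ℕ) : ℝ) ≤ 31 * k / 3 := by
    have := @Nat.cast_div_le ℝ _ _ _ (31 * k) 3
    refine this.trans (le_of_eq ?_)
    push_cast
    ring
  have h5 : ((2 * k + 31 * k / 3 : ℕ) : ℝ) = 2 * k + ((31 * k / 3 : ℕ) : ℝ) := by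
    push_cast; ring
  rw [h5]
  linarith

lemma le_cc (j : ℕ) (hj : 1 ≤ j) :
    (Nat.card (IsLocalRing.ResidueField O) : ℝ) ^ ((37 / 3 : ℝ) * (3 * j)) ≤
      (Nat.card (IsLocalRing.ResidueField O) : ℝ) ^ 2 * cc O G9 (3 * j) := by
  obtain ⟨π, hπ⟩ := exists_chain O (3 * j)
  have h1 := sol9_ge hπ hj
  set q := Nat.card (IsLocalRing.ResidueField O) with hqd
  have h2 : q ^ (37 * j) ≤ q ^ 2 * cc O G9 (3 * j) := by
    rw [cc_eq, ← hqd]
    calc q ^ (37 * j) = (q ^ (3 * j)) ^ 2 * q ^ (31 * j) := by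
          rw [← pow_mul, ← pow_add]; congr 1; omega
      _ ≤ (q ^ (3 * j)) ^ 2 * (q ^ 2 * Nat.card (Sol G9
          (O ⧸ (IsLocalRing.maximalIdeal O) ^ (3 * j)))) := Nat.mul_le_mul_left _ h1
      _ = _ := by ring
  have h3 : (q : ℝ) ^ (37 * j) ≤ (q : ℝ) ^ 2 * cc O G9 (3 * j) := by exact_mod_cast h2
  refine le_trans (le_of_eq ?_) h3
  rw [← Real.rpow_natCast (q : ℝ) (37 * j)]
  congr 1
  push_cast
  ring

end

/-- For the graph `G9` and every discrete valuation ring `𝔒` with finite residue field, the class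
counting zeta function of `G_Γ ⊗ 𝔒` converges absolutely for `Re s > 37/3`, tends to infinity as
the real number `s` tends to `37/3` from above, and every meromorphic continuation of it to `ℂ` has
a pole at `37/3`, which is not a half-integer. -/
theorem result (O : Type u) [CommRing O] [IsDomain O] [IsDiscreteValuationRing O]
    [Finite (IsLocalRing.ResidueField O)] :
    (∀ s : ℂ, 37 / 3 < s.re → Summable (zterm O G9 s)) ∧
    Tendsto (fun σ : ℝ => ‖∑' k : ℕ, zterm O G9 (σ : ℂ) k‖) (𝓝[>] (37 / 3)) atTop ∧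
    (∀ F : ℂ → ℂ, IsContinuation O G9 F → HasPole F (37 / 3)) ∧
    ¬ ∃ m : ℤ, (37 / 3 : ℂ).re = m / 2 := by
  refine ⟨fun s hs => summable_tm (two_le_card O) (cc_le O) hs, ?_, ?_, ?_⟩
  · refine (tendsto_atTop_rtm (two_le_card O) (cc_le O) (le_cc O)).congr fun σ => ?_
    have h : ∑' k : ℕ, zterm O G9 (σ : ℂ) k = ((∑' k : ℕ, rtm (Nat.card
        (IsLocalRing.ResidueField O)) (cc O G9) σ k : ℝ) : ℂ) := by
      rw [Complex.ofReal_tsum]
      exact tsum_congr fun k => tm_ofReal σ k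
    rw [h, Complex.norm_real, Real.norm_of_nonneg (tsum_nonneg fun k => rtm_nonneg σ k)]
  · rintro F ⟨hF, σ, hσ⟩
    have h := pole_of_bounds (two_le_card O) (cc_le O) (le_cc O) F hF σ hσ
    have e : ((37 / 3 : ℝ) : ℂ) = 37 / 3 := by push_cast; rfl
    rw [e] at h
    exact h
  · rintro ⟨m, hm⟩
    have e : (37 / 3 : ℂ) = ((37 / 3 : ℝ) : ℂ) := by push_cast; rfl
    rw [e, Complex.ofReal_re] at hm
    have h1 : ((74 : ℤ) : ℝ) = ((3 * m : ℤ) : ℝ) := by push_cast; linarith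
    have h2 : (74 : ℤ) = 3 * m := by exact_mod_cast h1
    omega

end Pool.Agent.Results.MP_3df142_al.PoleAtThirtySevenThirds
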